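import Mathlib
import Pool.Agent.X147.SegUp

set_option autoImplicit false

/-! # MP_9fae52_an, Q1: the best three-stage motion is not optimal

Definitions used (in `Pool.Agent.X147.Seg`, file `SegDef`): `E3` is Euclidean 3-space; the points
`A₁, B₁, A₂, B₂, C₁ θ, C₂ θ` are those of the problem; `IsMotion A B`, `cost A B` (sum of the
lengths of the two curves on `[0, 1]`), `IsThreeStage θ A B` (the motion `(A, B)` is of the form
`M_θ`). -/

open Set EuclideanGeometry Pool.Agent.X147.Seg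

namespace Pool.Agent.Results.MP_9fae52_an.TangentMotion

lemma sqrt6_sq : Real.sqrt 6 ^ 2 = 6 := Real.sq_sqrt (by norm_num)
lemma sqrt6_gt : 2.44948 < Real.sqrt 6 := by
  apply Real.lt_sqrt_of_sq_lt; norm_num
lemma sqrt6_lt : Real.sqrt 6 < 2.4495 := by
  rw [Real.sqrt_lt' (by norm_num)]; norm_num

/-- the angle of the tangent motion -/
noncomputable def φ : ℝ := Real.arccos ((2 + 3 * Real.sqrt 6) / 10)

lemma cos_φ : Real.cos φ = (2 + 3 * Real.sqrt 6) / 10 := by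
  apply Real.cos_arccos <;> linarith [sqrt6_gt, sqrt6_lt]

lemma sin_φ : Real.sin φ = (6 - Real.sqrt 6) / 10 := by
  unfold φ
  rw [Real.sin_arccos]
  have h : 1 - ((2 + 3 * Real.sqrt 6) / 10) ^ 2 = ((6 - Real.sqrt 6) / 10) ^ 2 := by
    have := sqrt6_sq
    nlinarith
  rw [h]
  exact Real.sqrt_sq (by linarith [sqrt6_lt])

lemma φ_nonneg : 0 ≤ φ := Real.arccos_nonneg _

lemma φ_le : φ ≤ 0.363 := by
  by_contra hcon
  push Not at hcon
  have h1 : Real.cos φ < Real.cos 0.363 :=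
    Real.cos_lt_cos_of_nonneg_of_le_pi (by norm_num) (Real.arccos_le_pi _) hcon
  have h2 : Real.cos 0.363 ≤ 0.93484 := by
    have h3 := Real.sin_ge_sub_cube (x := 0.1815) (by norm_num)
    have h4 := Real.cos_two_mul 0.1815
    have h5 := Real.sin_sq_add_cos_sq 0.1815
    rw [show (2 : ℝ) * 0.1815 = 0.363 by norm_num] at h4
    have h6 : (0.1805 : ℝ) ≤ Real.sin 0.1815 := by norm_num at h3 ⊢; linarith
    nlinarith
  rw [cos_φ] at h1
  linarith [sqrt6_gt]

/-- parameters of the tangent motion -/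
noncomputable def p : Pr where
  τ := φ
  τ0 := φ_nonneg
  hτ := by rw [cos_φ, sin_φ]; linarith

lemma p_xz : p.x + 2 * p.z = 2 := by
  unfold Pr.x Pr.z
  change Real.cos φ + Real.sin φ / 3 + 2 * (4 * Real.sin φ / 3) = 2
  rw [cos_φ, sin_φ]; ring

lemma dist_p : dist (arc p.τ) B₂ = Real.sqrt 3 := by
  apply dist_eq_of_sq (Real.sqrt_nonneg _)
  rw [p.dist_B₂, p_xz, Real.sq_sqrt (by norm_num)]; norm_num

lemma norm_p : ‖arc' p.τ‖ = Real.sqrt 3 := by
  rw [← dist_zero_right]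
  apply dist_eq_of_sq (Real.sqrt_nonneg _)
  rw [dist_zero_right, p.norm_arc', p_xz, Real.sq_sqrt (by norm_num)]; norm_num

lemma bound : Real.sqrt 2 * φ + Real.sqrt 3 ≤ 2.2455 := by
  have h1 : Real.sqrt 2 ≤ 1.41422 := by
    rw [Real.sqrt_le_iff]; norm_num
  have h2 : Real.sqrt 3 ≤ 1.73206 := by
    rw [Real.sqrt_le_iff]; norm_num
  have h3 : Real.sqrt 2 * φ ≤ 1.41422 * 0.363 :=
    mul_le_mul h1 φ_le φ_nonneg (by norm_num)
  linarith

lemma cost_p : cost p.A p.B ≤ ENNReal.ofReal 4.491 := by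
  have hA := p.costA
  have hB := p.costB
  rw [norm_p] at hA
  rw [dist_p] at hB
  unfold cost
  refine (add_le_add hA hB).trans ?_
  have h0 : 0 ≤ Real.sqrt 2 * p.τ + Real.sqrt 3 := by
    have := p.τ0
    positivity
  rw [← ENNReal.ofReal_add h0 h0]
  apply ENNReal.ofReal_le_ofReal
  have := bound
  change Real.sqrt 2 * φ + Real.sqrt 3 + (Real.sqrt 2 * φ + Real.sqrt 3) ≤ 4.491
  linarith

/-! ### Three-stage motions exist -/

/-- angle of Lewis' motion along the great circle -/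
noncomputable def ψ : ℝ := Real.arccos (4 / 5)

lemma cos_ψ : Real.cos ψ = 4 / 5 := Real.cos_arccos (by norm_num) (by norm_num)

lemma sin_ψ : Real.sin ψ = 3 / 5 := by
  unfold ψ
  rw [Real.sin_arccos, show (1 : ℝ) - (4 / 5) ^ 2 = (3 / 5) ^ 2 by norm_num]
  exact Real.sqrt_sq (by norm_num)

lemma ψ_nonneg : 0 ≤ ψ := Real.arccos_nonneg _
lemma ψ_le : ψ ≤ Real.pi := Real.arccos_le_pi _

/-- parameters of Lewis' motion -/
noncomputable def p' : Pr where
  τ := ψ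
  τ0 := ψ_nonneg
  hτ := by rw [cos_ψ, sin_ψ]; norm_num

/-- Lewis' angle -/
noncomputable def θ' : ℝ := Real.arccos (3 / 5)

lemma cos_θ' : Real.cos θ' = 3 / 5 := Real.cos_arccos (by norm_num) (by norm_num)

lemma sin_θ' : Real.sin θ' = 4 / 5 := by
  unfold θ'
  rw [Real.sin_arccos, show (1 : ℝ) - (3 / 5) ^ 2 = (4 / 5) ^ 2 by norm_num]
  exact Real.sqrt_sq (by norm_num)

lemma arc_ψ : arc ψ = C₁ θ' := by
  apply ext3 <;> simp [arc, C₁, cos_ψ, sin_ψ, cos_θ', sin_θ'] <;> norm_num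

lemma arc'_ψ : arc' ψ = C₂ θ' := by
  apply ext3 <;> simp [arc', C₂, cos_ψ, sin_ψ, cos_θ', sin_θ'] <;> norm_num

lemma angle_arc {σ τ : ℝ} (h : σ ≤ τ) (hπ : τ - σ ≤ Real.pi) : ∠ (arc σ) A₁ (arc τ) = τ - σ := by
  have h1 : Real.cos (∠ (arc σ) A₁ (arc τ)) = Real.cos (τ - σ) := by
    apply cos_angle_of (arc_dist σ) (arc_dist τ)
    rw [inner3, Real.cos_sub]; simp [arc, A₁]; ring
  exact Real.injOn_cos ⟨angle_nonneg _ _ _, angle_le_pi _ _ _⟩ ⟨by linarith, hπ⟩ h1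

lemma angle_arc' {σ τ : ℝ} (h : σ ≤ τ) (hπ : τ - σ ≤ Real.pi) :
    ∠ (arc' τ) B₂ (arc' σ) = τ - σ := by
  have h1 : Real.cos (∠ (arc' τ) B₂ (arc' σ)) = Real.cos (τ - σ) := by
    apply cos_angle_of (arc'_dist τ) (arc'_dist σ)
    rw [inner3, Real.cos_sub]; simp [arc', B₂]; ring
  exact Real.injOn_cos ⟨angle_nonneg _ _ _, angle_le_pi _ _ _⟩ ⟨by linarith, hπ⟩ h1

lemma lewis : IsThreeStage θ' p'.A p'.B := by
  have hψ0 := ψ_nonneg
  have hψπ := ψ_le
  have hτ : p'.τ = ψ := rfl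
  refine ⟨p'.isMotion, 1 / 3, 2 / 3, by norm_num, by norm_num, by norm_num,
    fun t ht => p'.A_first ht.2, ⟨p'.isMotion.B_zero, ?_, ?_, ?_⟩, ⟨fun t => p'.b (cl (3 * t - 1)),
    ?_, ?_, ?_, ?_⟩, ⟨fun t => p'.a (cl (3 * t - 1)), ?_, ?_, ?_, ?_⟩,
    fun t ht => p'.B_third ht.1, ⟨?_, p'.isMotion.A_one, ?_, ?_⟩⟩
  · rw [p'.B_first le_rfl, cl_of_ge (by norm_num), mul_one, hτ, arc_ψ]
  · intro r hr
    have h0 := cl_nonneg (3 * r)
    have h1 := cl_le_one (3 * r)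
    have h2 : 0 ≤ ψ * cl (3 * r) := by positivity
    have h3 : ψ * cl (3 * r) ≤ ψ := mul_le_of_le_one_right hψ0 h1
    rw [p'.B_first hr.2, hτ, ← arc_zero, ← arc_ψ, angle_arc h2 (by linarith),
      angle_arc h3 (by linarith), angle_arc hψ0 (by linarith)]
    ring
  · intro r hr s hs hrs
    have h0 := cl_nonneg (3 * r)
    have h1 := cl_le_one (3 * r)
    have h2 : 0 ≤ ψ * cl (3 * r) := by positivity
    have h3 : ψ * cl (3 * r) ≤ ψ := mul_le_of_le_one_right hψ0 h1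
    have k0 := cl_nonneg (3 * s)
    have k1 := cl_le_one (3 * s)
    have k2 : 0 ≤ ψ * cl (3 * s) := by positivity
    have k3 : ψ * cl (3 * s) ≤ ψ := mul_le_of_le_one_right hψ0 k1
    simp only
    rw [p'.B_first hr.2, p'.B_first hs.2, hτ, ← arc_zero, angle_arc h2 (by linarith),
      angle_arc k2 (by linarith)]
    have : cl (3 * r) ≤ cl (3 * s) := cl_mono (by linarith)
    have := mul_le_mul_of_nonneg_left this hψ0
    linarith
  · intro a _ b _ h
    exact p'.b_mono ⟨cl_nonneg _, cl_le_one _⟩ ⟨cl_nonneg _, cl_le_one _⟩ (cl_mono (by linarith))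
  · simp only
    rw [cl_of_le (by norm_num), p'.b_zero]
  · simp only
    rw [cl_of_ge (by norm_num), p'.b_one]
  · intro r hr
    rw [p'.B_second hr.1, hτ, arc_ψ]
  · intro a _ b _ h
    exact p'.a_mono ⟨cl_nonneg _, cl_le_one _⟩ ⟨cl_nonneg _, cl_le_one _⟩ (cl_mono (by linarith))
  · simp only
    rw [cl_of_le (by norm_num), p'.a_zero]
  · simp only
    rw [cl_of_ge (by norm_num), p'.a_one]
  · intro r hr
    rw [p'.A_second hr.2, hτ, arc'_ψ, Pr.A₁_eq, zero_add, sub_zero]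
  · rw [p'.A_third le_rfl, cl_of_le (by norm_num), sub_zero, mul_one, hτ, arc'_ψ]
  · intro r hr
    have h0 := cl_nonneg (3 * r - 2)
    have h1 := cl_le_one (3 * r - 2)
    have h2 : 0 ≤ ψ * (1 - cl (3 * r - 2)) := mul_nonneg hψ0 (by linarith)
    have h3 : ψ * (1 - cl (3 * r - 2)) ≤ ψ := mul_le_of_le_one_right hψ0 (by linarith)
    rw [p'.A_third hr.1, hτ, ← arc'_zero, ← arc'_ψ, angle_arc' h3 (by linarith),
      angle_arc' h2 (by linarith), angle_arc' hψ0 (by linarith)]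
    ring
  · intro r hr s hs hrs
    have h0 := cl_nonneg (3 * r - 2)
    have h1 := cl_le_one (3 * r - 2)
    have h2 : 0 ≤ ψ * (1 - cl (3 * r - 2)) := mul_nonneg hψ0 (by linarith)
    have h3 : ψ * (1 - cl (3 * r - 2)) ≤ ψ := mul_le_of_le_one_right hψ0 (by linarith)
    have k0 := cl_nonneg (3 * s - 2)
    have k1 := cl_le_one (3 * s - 2)
    have k2 : 0 ≤ ψ * (1 - cl (3 * s - 2)) := mul_nonneg hψ0 (by linarith)
    have k3 : ψ * (1 - cl (3 * s - 2)) ≤ ψ := mul_le_of_le_one_right hψ0 (by linarith)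
    simp only
    rw [p'.A_third hr.1, p'.A_third hs.1, hτ, ← arc'_ψ, angle_arc' h3 (by linarith),
      angle_arc' k3 (by linarith)]
    have : cl (3 * r - 2) ≤ cl (3 * s - 2) := cl_mono (by linarith)
    have := mul_le_mul_of_nonneg_left this hψ0
    linarith

/-- There is a motion of cost at most `4.491`, while every three-stage motion `M_θ` has cost at
least `4.494` (and such motions exist). -/
theorem result :
    (∃ A B : ℝ → E3, IsMotion A B ∧ cost A B ≤ ENNReal.ofReal 4.491) ∧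
    (∀ (θ : ℝ) (A B : ℝ → E3), IsThreeStage θ A B → ENNReal.ofReal 4.494 ≤ cost A B) ∧
    (∃ (θ : ℝ) (A B : ℝ → E3), IsThreeStage θ A B) :=
  ⟨⟨p.A, p.B, p.isMotion, cost_p⟩, fun _ _ _ h => three_stage_cost h, ⟨θ', p'.A, p'.B, lewis⟩⟩

end Pool.Agent.Results.MP_9fae52_an.TangentMotion
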